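import Mathlib
import Pool.Agent.W560.EW.Stm

/-!
The quartic `(1 + x)^4` excludes exponents `1 < α ≤ 9/8` (part QRT of project EW).
-/

set_option autoImplicit false

open Polynomial

namespace Pool.Agent.W984.EW

open Pool.Agent.W560.EW

theorem num (b : ℝ) (hb : 0 < b) (hb' : b ≤ 1 / 8) :
    (3 / 2) * (3 / 2 : ℝ) ^ b + (1 / 2) * (1 / 4 : ℝ) ^ b < 2 := by
  have h1 : (3 / 2 : ℝ) ^ b ≤ 1 + 8 * b * (52 / 1000) := by
    have e1 : (3 / 2 : ℝ) ^ b ≤ ((1052 / 1000 : ℝ) ^ (8 : ℝ)) ^ b := by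
      apply Real.rpow_le_rpow (by norm_num) _ hb.le
      rw [show (8 : ℝ) = ((8 : ℕ) : ℝ) by norm_num, Real.rpow_natCast]
      norm_num
    rw [← Real.rpow_mul (by norm_num)] at e1
    have e2 := rpow_one_add_le_one_add_mul_self (s := 52 / 1000) (p := 8 * b)
      (by norm_num) (by positivity) (by linarith)
    rw [show (1 : ℝ) + 52 / 1000 = 1052 / 1000 by norm_num] at e2
    exact e1.trans e2
  have h2 : (1 / 4 : ℝ) ^ b ≤ 1 + 8 * b * (-(159 / 1000)) := by
    have e1 : (1 / 4 : ℝ) ^ b ≤ ((841 / 1000 : ℝ) ^ (8 : ℝ)) ^ b := by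
      apply Real.rpow_le_rpow (by norm_num) _ hb.le
      rw [show (8 : ℝ) = ((8 : ℕ) : ℝ) by norm_num, Real.rpow_natCast]
      norm_num
    rw [← Real.rpow_mul (by norm_num)] at e1
    have e2 := rpow_one_add_le_one_add_mul_self (s := -(159 / 1000)) (p := 8 * b)
      (by norm_num) (by positivity) (by linarith)
    rw [show (1 : ℝ) + -(159 / 1000) = 841 / 1000 by norm_num] at e2
    exact e1.trans e2
  nlinarith

theorem ineq (α : ℝ) (h1 : 1 < α) (h2 : α ≤ 9 / 8) :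
    (6 : ℝ) ^ α + 2 < 2 * (4 : ℝ) ^ α := by
  have hn := num (α - 1) (by linarith) (by linarith)
  have e6 : (6 : ℝ) ^ α = 6 * (6 : ℝ) ^ (α - 1) := by
    rw [Real.rpow_sub_one (by norm_num)]; field_simp
  have e4 : (4 : ℝ) ^ α = 4 * (4 : ℝ) ^ (α - 1) := by
    rw [Real.rpow_sub_one (by norm_num)]; field_simp
  have hp : 0 < (4 : ℝ) ^ (α - 1) := by positivity
  have e1 : (3 / 2 : ℝ) ^ (α - 1) * (4 : ℝ) ^ (α - 1) = (6 : ℝ) ^ (α - 1) := by
    rw [← Real.mul_rpow (by norm_num) (by norm_num)]; norm_num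
  have e2 : (1 / 4 : ℝ) ^ (α - 1) * (4 : ℝ) ^ (α - 1) = 1 := by
    rw [← Real.mul_rpow (by norm_num) (by norm_num)]; norm_num
  rw [e6, e4]
  have := mul_lt_mul_of_pos_right hn hp
  nlinarith

theorem qrt : S_QRT := by
  intro α hP h1
  by_contra hcon
  push Not at hcon
  set F : ℝ → ℝ := fun t : ℝ => if 0 < t then t ^ α else 0 with hF
  have hdeg : ((X + 1 : ℝ[X]) ^ 4).natDegree = 4 := by
    rw [natDegree_pow, show (X + 1 : ℝ[X]) = X + C 1 by simp, natDegree_X_add_C]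
  have hc : ∀ k, ((X + 1 : ℝ[X]) ^ 4).coeff k = ((Nat.choose 4 k : ℕ) : ℝ) := by
    intro k
    exact Polynomial.coeff_X_add_one_pow ℝ 4 k
  have hpos : ∀ k ≤ ((X + 1 : ℝ[X]) ^ 4).natDegree, 0 < ((X + 1 : ℝ[X]) ^ 4).coeff k := by
    intro k hk
    rw [hdeg] at hk
    rw [hc]
    exact_mod_cast Nat.choose_pos hk
  have hRR : RR ((X + 1 : ℝ[X]) ^ 4) := by
    intro z hz
    simp only [map_pow, map_add, aeval_X, map_one] at hz
    have h0 : z + 1 = 0 := pow_eq_zero_iff (n := 4) (by norm_num) |>.1 hz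
    have h3 : z = -1 := by linear_combination h0
    rw [h3]
    simp
  have hF1 : F 1 = 1 := by simp [hF]
  have hF4 : F 4 = (4 : ℝ) ^ α := by simp [hF]
  have hF6 : F 6 = (6 : ℝ) ^ α := by simp [hF]
  have happ : ∀ z : ℂ, aeval z (app F ((X + 1 : ℝ[X]) ^ 4)) =
      1 + (((4 : ℝ) ^ α : ℝ) : ℂ) * z + (((6 : ℝ) ^ α : ℝ) : ℂ) * z ^ 2 +
        (((4 : ℝ) ^ α : ℝ) : ℂ) * z ^ 3 + z ^ 4 := by
    intro z
    unfold app
    rw [hdeg, map_sum]
    simp only [aeval_monomial, hc]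
    rw [Finset.sum_range_succ, Finset.sum_range_succ, Finset.sum_range_succ,
      Finset.sum_range_succ, Finset.sum_range_succ, Finset.sum_range_zero]
    have c0 : ((Nat.choose 4 0 : ℕ) : ℝ) = 1 := by norm_num
    have c1 : ((Nat.choose 4 1 : ℕ) : ℝ) = 4 := by norm_num
    have c2 : ((Nat.choose 4 2 : ℕ) : ℝ) = 6 := by norm_num [Nat.choose]
    have c3 : ((Nat.choose 4 3 : ℕ) : ℝ) = 4 := by norm_num [Nat.choose]
    have c4 : ((Nat.choose 4 4 : ℕ) : ℝ) = 1 := by norm_num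
    rw [c0, c1, c2, c3, c4, hF1, hF4, hF6]
    simp only [Complex.coe_algebraMap, Complex.ofReal_one]
    ring
  have hI := ineq α h1 hcon
  have hB : (6 : ℝ) ≤ (6 : ℝ) ^ α := by
    calc (6 : ℝ) = (6 : ℝ) ^ (1 : ℝ) := by simp
      _ ≤ (6 : ℝ) ^ α := Real.rpow_le_rpow_of_exponent_le (by norm_num) h1.le
  rcases hP _ hpos hRR with h0 | hR
  · have h3 := happ 0
    rw [h0] at h3
    simp at h3
  · set A : ℝ := (4 : ℝ) ^ α with hA
    set B : ℝ := (6 : ℝ) ^ α with hBd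
    have hcont : ContinuousOn (fun y : ℝ => y ^ 2 + A * y + (B - 2)) (Set.Icc (-2) 0) := by
      fun_prop
    have hiv := intermediate_value_Icc (by norm_num : (-2 : ℝ) ≤ 0) hcont
    have h0mem : (0 : ℝ) ∈ Set.Icc ((fun y : ℝ => y ^ 2 + A * y + (B - 2)) (-2))
        ((fun y : ℝ => y ^ 2 + A * y + (B - 2)) 0) := by
      constructor
      · simp only
        linarith
      · simp only
        linarith
    obtain ⟨y, hy, hy0⟩ := hiv h0mem
    simp only at hy0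
    have hy1 : -2 < y := by
      rcases lt_or_eq_of_le hy.1 with h | h
      · exact h
      · exfalso
        rw [← h] at hy0
        linarith
    have hs : 0 < 4 - y ^ 2 := by nlinarith [hy.2]
    set s : ℝ := Real.sqrt (4 - y ^ 2) with hsd
    have hs0 : 0 < s := Real.sqrt_pos.2 hs
    have hs2 : s ^ 2 = 4 - y ^ 2 := Real.sq_sqrt hs.le
    set z : ℂ := ((y : ℂ) + s * Complex.I) / 2 with hz
    have hq : z ^ 2 - y * z + 1 = 0 := by
      have hs2' : (s : ℂ) ^ 2 = 4 - (y : ℂ) ^ 2 := by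
        exact_mod_cast congrArg (fun x : ℝ => (x : ℂ)) hs2
      rw [hz]
      linear_combination (-(1 : ℂ) / 4) * hs2' + ((s : ℂ) ^ 2 / 4) * Complex.I_sq
    have hy0' : (y : ℂ) ^ 2 + A * y + (B - 2) = 0 := by
      exact_mod_cast congrArg (fun x : ℝ => (x : ℂ)) hy0
    have hzero : aeval z (app F ((X + 1 : ℝ[X]) ^ 4)) = 0 := by
      rw [happ z]
      linear_combination (z ^ 2 + (A + y) * z + 1) * hq + z ^ 2 * hy0'
    have him := hR z hzero
    rw [hz] at him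
    simp at him
    linarith

end Pool.Agent.W984.EW
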